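import Pool.Agent.helper62.VD.SpecL

/-! Row ALCH (project VD): the chain rule for the matrices `Yf`, `Pf`. -/

set_option autoImplicit false

open scoped ContDiff Topology InnerProductSpace ComplexConjugate ENNReal
open MeasureTheory Filter Set

namespace Pool.Agent.VD

noncomputable section

theorem ALCH_dec {d : ℕ} (ℓ : P d →L[ℝ] ℝ) (v : P d) :
    ℓ v = ∑ k, v.1 k * ℓ (EuclideanSpace.single k 1, 0) + ∑ k, v.2 k * ℓ (0, EuclideanSpace.single k 1) := by
  have hb : ∀ w : V d, w = ∑ k, w k • (EuclideanSpace.single k (1 : ℝ) : V d) := by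
    intro w
    have h := (EuclideanSpace.basisFun (Fin d) ℝ).sum_repr w
    simpa using h.symm
  have hv : v = ∑ k, v.1 k • ((EuclideanSpace.single k (1 : ℝ), 0) : P d) +
      ∑ k, v.2 k • ((0, EuclideanSpace.single k (1 : ℝ)) : P d) := by
    refine Prod.ext ?_ ?_
    · rw [Prod.fst_add, Prod.fst_sum, Prod.fst_sum]
      simp only [Prod.smul_fst, smul_zero, Finset.sum_const_zero, add_zero]
      exact hb v.1
    · rw [Prod.snd_add, Prod.snd_sum, Prod.snd_sum]
      simp only [Prod.smul_snd, smul_zero, Finset.sum_const_zero, zero_add]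
      exact hb v.2
  have h2 := congrArg ℓ hv
  rw [map_add, map_sum, map_sum] at h2
  simp only [map_smul, smul_eq_mul] at h2
  exact h2

theorem ALCH_mat {d : ℕ} (ℓ : Fin d → (P d →L[ℝ] ℝ)) (A : P d →L[ℝ] P d) (Y0 P0 : MC d) :
    (Matrix.of fun i j => ((ℓ i (A (EuclideanSpace.single j 1, 0)) : ℝ) : ℂ)) * Y0 +
      (Matrix.of fun i j => ((ℓ i (A (0, EuclideanSpace.single j 1)) : ℝ) : ℂ)) * P0 =
    (Matrix.of fun i j => ((ℓ i (EuclideanSpace.single j 1, 0) : ℝ) : ℂ)) *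
      ((Matrix.of fun i j => (((A (EuclideanSpace.single j 1, 0)).1 i : ℝ) : ℂ)) * Y0 +
        (Matrix.of fun i j => (((A (0, EuclideanSpace.single j 1)).1 i : ℝ) : ℂ)) * P0) +
    (Matrix.of fun i j => ((ℓ i (0, EuclideanSpace.single j 1) : ℝ) : ℂ)) *
      ((Matrix.of fun i j => (((A (EuclideanSpace.single j 1, 0)).2 i : ℝ) : ℂ)) * Y0 +
        (Matrix.of fun i j => (((A (0, EuclideanSpace.single j 1)).2 i : ℝ) : ℂ)) * P0) := by
  have key : ∀ w : Fin d → P d, (Matrix.of fun i j => ((ℓ i (A (w j)) : ℝ) : ℂ)) =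
      (Matrix.of fun i j => ((ℓ i (EuclideanSpace.single j 1, 0) : ℝ) : ℂ)) * (Matrix.of fun i j => (((A (w j)).1 i : ℝ) : ℂ)) +
      (Matrix.of fun i j => ((ℓ i (0, EuclideanSpace.single j 1) : ℝ) : ℂ)) * (Matrix.of fun i j => (((A (w j)).2 i : ℝ) : ℂ)) := by
    intro w
    ext i j
    rw [Matrix.add_apply, Matrix.mul_apply, Matrix.mul_apply]
    simp only [Matrix.of_apply]
    rw [ALCH_dec (ℓ i) (A (w j))]
    push_cast
    congr 1 <;> exact Finset.sum_congr rfl fun k _ => mul_comm _ _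
  rw [key fun j => (EuclideanSpace.single j 1, 0), key fun j => (0, EuclideanSpace.single j 1)]
  rw [Matrix.add_mul, Matrix.add_mul, Matrix.mul_add, Matrix.mul_add]
  simp only [Matrix.mul_assoc]
  abel

theorem ALCH_proof : ALCH_stmt := by
  intro d f g p Y0 P0 hf hg
  have hfd : fderiv ℝ (fun q => g (f q)) p = (fderiv ℝ g (f p)).comp (fderiv ℝ f p) := fderiv_comp p hg hf
  have hid : fderiv ℝ (fun q : P d => q) p = ContinuousLinearMap.id ℝ (P d) := fderiv_id
  have h1 : (Matrix.of fun i j => (((EuclideanSpace.single j (1 : ℝ) : V d) i : ℝ) : ℂ)) = (1 : MC d) := by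
    ext i j
    rw [Matrix.of_apply, Matrix.one_apply]
    simp only [EuclideanSpace.single_apply]
    split_ifs <;> simp
  have h0 : (Matrix.of fun i j : Fin d => ((((0 : V d)) i : ℝ) : ℂ)) = (0 : MC d) := by
    ext i j
    simp
  refine ⟨?_, ?_, ?_, ?_⟩
  · unfold Yf Pf
    rw [hfd]
    exact ALCH_mat (fun i => (EuclideanSpace.proj i : V d →L[ℝ] ℝ).comp
      ((ContinuousLinearMap.fst ℝ (V d) (V d)).comp (fderiv ℝ g (f p)))) (fderiv ℝ f p) Y0 P0
  · unfold Yf Pf
    rw [hfd]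
    exact ALCH_mat (fun i => (EuclideanSpace.proj i : V d →L[ℝ] ℝ).comp
      ((ContinuousLinearMap.snd ℝ (V d) (V d)).comp (fderiv ℝ g (f p)))) (fderiv ℝ f p) Y0 P0
  · unfold Yf
    rw [hid]
    show (Matrix.of fun i j => (((EuclideanSpace.single j (1 : ℝ) : V d) i : ℝ) : ℂ)) * Y0 +
      (Matrix.of fun i j : Fin d => ((((0 : V d)) i : ℝ) : ℂ)) * P0 = Y0
    rw [h1, h0, one_mul, zero_mul, add_zero]
  · unfold Pf
    rw [hid]
    show (Matrix.of fun i j : Fin d => ((((0 : V d)) i : ℝ) : ℂ)) * Y0 +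
      (Matrix.of fun i j => (((EuclideanSpace.single j (1 : ℝ) : V d) i : ℝ) : ℂ)) * P0 = P0
    rw [h1, h0, one_mul, zero_mul, zero_add]

end

end Pool.Agent.VD
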