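import Pool.Agent.helper80.VD.SpecF

/-! Row GCF (project VD): uniform confinement of the orbits. -/

set_option autoImplicit false

open scoped ContDiff Topology InnerProductSpace
open MeasureTheory Filter Set

namespace Pool.Agent.VD

noncomputable section

/-- A curve whose speed is bounded as long as it stays near its starting point. -/
theorem GCF_exit {E : Type} [NormedAddCommGroup E] [NormedSpace ℝ E] (x v : ℝ → E) (c τ : ℝ) (hc : 0 ≤ c)
    (hτ : (c + 1) * τ ≤ 1) (hx : ∀ s, HasDerivAt x (v s) s) (hv : ∀ s, ‖x s - x 0‖ ≤ 1 → ‖v s‖ ≤ c)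
    (s : ℝ) (hs0 : 0 ≤ s) (hs : s ≤ τ) : ‖x s - x 0‖ ≤ 1 := by
  have hb : ∀ r : ℝ, r ≤ τ → (c + 1) * r ≤ 1 := fun r hr =>
    (mul_le_mul_of_nonneg_left hr (by linarith)).trans hτ
  have h := image_norm_le_of_norm_deriv_right_lt_deriv_boundary' (f := fun r => x r - x 0) (f' := v)
    (a := 0) (b := τ) (B := fun r => (c + 1) * r) (B' := fun _ => c + 1)
    (fun r _ => ((hx r).sub_const _).continuousAt.continuousWithinAt)
    (fun r _ => ((hx r).sub_const _).hasDerivWithinAt)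
    (by simp)
    (by fun_prop)
    (fun r _ => by simpa using ((hasDerivAt_id r).const_mul (c + 1)).hasDerivWithinAt)
    (fun r hr he => by
      have h1 : ‖x r - x 0‖ ≤ 1 := by
        have he' : ‖x r - x 0‖ = (c + 1) * r := he
        rw [he']
        exact hb r hr.2.le
      have h2 := hv r h1
      show ‖v r‖ < c + 1
      linarith)
  have h3 : ‖x s - x 0‖ ≤ (c + 1) * s := h ⟨hs0, hs⟩
  exact h3.trans (hb s hs)

/-- The same for both directions of time. -/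
theorem GCF_exit2 {E : Type} [NormedAddCommGroup E] [NormedSpace ℝ E] (x v : ℝ → E) (c τ : ℝ) (hc : 0 ≤ c)
    (hτ : (c + 1) * τ ≤ 1) (hx : ∀ s, HasDerivAt x (v s) s) (hv : ∀ s, ‖x s - x 0‖ ≤ 1 → ‖v s‖ ≤ c)
    (s : ℝ) (hs : |s| ≤ τ) : ‖x s - x 0‖ ≤ 1 := by
  rcases le_total 0 s with h0 | h0
  · exact GCF_exit x v c τ hc hτ hx hv s h0 ((le_abs_self s).trans hs)
  · have h := GCF_exit (fun r => x (-r)) (fun r => -v (-r)) c τ hc hτ
      (fun r => by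
        have h1 := (hx (-r)).scomp r (hasDerivAt_neg r)
        have h2 : HasDerivAt (x ∘ Neg.neg) (-v (-r)) r := by simpa using h1
        exact h2)
      (fun r hr => by
        rw [norm_neg]
        exact hv (-r) (by simpa using hr))
      (-s) (by linarith) ((neg_le_abs s).trans hs)
    simpa using h

/-- A finite union of images of compact sets is bounded. -/
theorem GCF_fin {E : Type} [NormedAddCommGroup E] (Γ : Type) [Group Γ] [MulAction Γ E] (S : Set Γ) (hS : S.Finite)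
    (L : Set E) (hL : IsCompact L) (hsm : ∀ γ : Γ, Continuous fun x : E => γ • x) :
    ∃ M : ℝ, ∀ γ ∈ S, ∀ y : E, γ • y ∈ L → ‖y‖ ≤ M := by
  have hc : IsCompact (⋃ γ ∈ S, (fun x : E => γ⁻¹ • x) '' L) :=
    hS.isCompact_biUnion fun γ _ => hL.image (hsm γ⁻¹)
  obtain ⟨M, hM⟩ := hc.isBounded.exists_norm_le
  refine ⟨M, fun γ hγ y hy => hM y ?_⟩
  refine Set.mem_biUnion hγ ⟨γ • y, hy, ?_⟩
  show γ⁻¹ • (γ • y) = y
  rw [inv_smul_smul]

/-- One step. -/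
theorem GCF_step (hGNR : GNR_stmt) (hGUN : GUN_stmt) (hGEQ : GEQ_stmt) (hGHL : GHL_stmt) (d : ℕ) (Γ : Type) [Group Γ] [MulAction Γ (V d)]
    (K : Set (V d)) (k : ℝ) (B : ℕ → ℕ → ℝ) (hK : FdK Γ K) :
    ∃ τ : ℝ, 0 < τ ∧ ∀ m : ℕ, ∃ m' : ℕ, ∀ (G : V d → V d →L[ℝ] V d) (Φ : ℝ → P d → P d), Cls Γ K k B G → IsFlow G Φ →
      ∀ (p : P d) (t : ℝ), ‖p.1‖ ≤ m → nrm G p ≤ 2 → |t| ≤ τ → ‖(Φ t p).1‖ ≤ m' := by
  have hK1 : IsCompact (Metric.cthickening 1 K) := hK.compact.cthickening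
  obtain ⟨M1, hM1⟩ := hK1.isBounded.exists_norm_le
  obtain ⟨m1, hm1⟩ := exists_nat_ge M1
  obtain ⟨C, hC1, hC⟩ := hGNR d B m1
  refine ⟨1 / (2 * C + 1), by positivity, ?_⟩
  intro m
  have hfin : {γ : Γ | ∃ x ∈ Metric.closedBall (0 : V d) m ∪ K, γ • x ∈ Metric.closedBall (0 : V d) m ∪ K}.Finite :=
    hK.proper _ ((isCompact_closedBall _ _).union hK.compact)
  obtain ⟨M, hM⟩ := GCF_fin Γ _ hfin _ hK1 (fun γ => (hK.smooth γ).continuous)
  obtain ⟨m', hm'⟩ := exists_nat_ge M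
  refine ⟨m', ?_⟩
  intro G Φ hG hΦ p t hp hn ht
  obtain ⟨γ, hγ⟩ := hK.cover p.1
  obtain ⟨hL1, _⟩ := hGHL d Γ G hG.met hK.smooth hG.isom
  obtain ⟨_, _, hcons, _⟩ := hGUN d G Φ hG.met hΦ
  have heq := hGEQ d Γ G Φ hG.met hK.smooth hG.isom hΦ γ
  have hS : γ ∈ {γ : Γ | ∃ x ∈ Metric.closedBall (0 : V d) m ∪ K, γ • x ∈ Metric.closedBall (0 : V d) m ∪ K} :=
    ⟨p.1, Or.inl (by rwa [mem_closedBall_zero_iff]), Or.inr hγ⟩
  have hq0 : (Φ 0 (lft γ p)).1 = γ • p.1 := by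
    rw [hΦ.zero]
    rfl
  have hder : ∀ s, HasDerivAt (fun s => (Φ s (lft γ p)).1) (vel G (Φ s (lft γ p))) s := by
    intro s
    have h1 := hΦ.deriv s (lft γ p)
    have h2 := (ContinuousLinearMap.fst ℝ (V d) (V d)).hasFDerivAt.comp_hasDerivAt s h1
    exact h2
  have hmem : ∀ y : V d, ‖y - γ • p.1‖ ≤ 1 → y ∈ Metric.cthickening 1 K := fun y hy =>
    Metric.mem_cthickening_of_dist_le y (γ • p.1) 1 K hγ (by rwa [dist_eq_norm])
  have hex := GCF_exit2 (fun s => (Φ s (lft γ p)).1) (fun s => vel G (Φ s (lft γ p))) (2 * C) (1 / (2 * C + 1))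
    (by positivity) (by
      have : (2 * C + 1) ≠ 0 := by positivity
      field_simp
      exact le_refl _) hder (fun s hs => by
      have hs' : ‖(Φ s (lft γ p)).1 - γ • p.1‖ ≤ 1 := by
        have : ‖(Φ s (lft γ p)).1 - (Φ 0 (lft γ p)).1‖ ≤ 1 := hs
        rwa [hq0] at this
      have hb : ‖(Φ s (lft γ p)).1‖ ≤ m1 := (hM1 _ (hmem _ hs')).trans hm1
      obtain ⟨_, _, hv, _⟩ := hC G hG.met hG.lo hG.bd (Φ s (lft γ p)) hb
      have hn2 : nrm G (Φ s (lft γ p)) ≤ 2 := by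
        rw [(hcons s (lft γ p)).2, (hL1 γ p).2.1]
        exact hn
      have : ‖vel G (Φ s (lft γ p))‖ ≤ C * 2 := hv.trans (mul_le_mul_of_nonneg_left hn2 (by linarith))
      linarith) t ht
  have hex' : ‖(Φ t (lft γ p)).1 - γ • p.1‖ ≤ 1 := by
    have : ‖(Φ t (lft γ p)).1 - (Φ 0 (lft γ p)).1‖ ≤ 1 := hex
    rwa [hq0] at this
  have h3 := hmem _ hex'
  rw [heq t p] at h3
  exact (hM γ hS (Φ t p).1 h3).trans hm'

set_option linter.unusedVariables false in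
theorem GCF_proof (hGNR : GNR_stmt) (hGUN : GUN_stmt) (hGEQ : GEQ_stmt) (hGHL : GHL_stmt) (hGLF : GLF_stmt) : GCF_stmt := by
  intro d Γ _ _ K k B hK m T
  obtain ⟨τ, hτ, hstep⟩ := GCF_step hGNR hGUN hGEQ hGHL d Γ K k B hK
  have hind : ∀ n : ℕ, ∀ m : ℕ, ∃ m' : ℕ, ∀ (G : V d → V d →L[ℝ] V d) (Φ : ℝ → P d → P d), Cls Γ K k B G → IsFlow G Φ →
      ∀ (p : P d) (t : ℝ), ‖p.1‖ ≤ m → nrm G p ≤ 2 → |t| ≤ n * τ → ‖(Φ t p).1‖ ≤ m' := by
    intro n
    induction n with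
    | zero =>
      intro m
      refine ⟨m, ?_⟩
      intro G Φ _ hΦ p t hp _ ht
      have h0 : t = 0 := by
        have : |t| ≤ 0 := by simpa using ht
        exact abs_nonpos_iff.1 this
      rw [h0, hΦ.zero]
      exact hp
    | succ n ih =>
      intro m
      obtain ⟨m1, hm1⟩ := hstep m
      obtain ⟨m2, hm2⟩ := ih m1
      refine ⟨m2, ?_⟩
      intro G Φ hG hΦ p t hp hn ht
      have hn0 : (0 : ℝ) < (n : ℝ) + 1 := by positivity
      have ht' : |t| ≤ ((n : ℝ) + 1) * τ := by simpa using ht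
      have e : t = n * (t / (n + 1)) + t / (n + 1) := by
        field_simp
      have hs : |t / ((n : ℝ) + 1)| ≤ τ := by
        rw [abs_div, abs_of_pos hn0, div_le_iff₀ hn0]
        linarith
      have hr : |n * (t / ((n : ℝ) + 1))| ≤ n * τ := by
        rw [abs_mul, abs_of_nonneg (Nat.cast_nonneg n : (0 : ℝ) ≤ n)]
        exact mul_le_mul_of_nonneg_left hs (Nat.cast_nonneg n)
      rw [e, hΦ.add]
      refine hm2 G Φ hG hΦ _ _ (hm1 G Φ hG hΦ p _ hp hn hs) ?_ hr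
      obtain ⟨_, _, hcons, _⟩ := hGUN d G Φ hG.met hΦ
      rw [(hcons _ p).2]
      exact hn
  obtain ⟨n, hn⟩ := exists_nat_ge (T / τ)
  have hT : T ≤ n * τ := (div_le_iff₀ hτ).1 hn
  obtain ⟨m1, hm1⟩ := hind n m
  obtain ⟨C, hC1, hC⟩ := hGNR d B m1
  obtain ⟨m2, hm2⟩ := exists_nat_ge (C * 2)
  refine ⟨max m (max m1 m2), le_max_left _ _, ?_⟩
  intro G Φ hG hΦ p t hp hnp ht
  have h1 := hm1 G Φ hG hΦ p t hp hnp (ht.trans hT)
  obtain ⟨h2, _⟩ := hC G hG.met hG.lo hG.bd (Φ t p) h1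
  obtain ⟨_, _, hcons, _⟩ := hGUN d G Φ hG.met hΦ
  have h3 : nrm G (Φ t p) ≤ 2 := by
    rw [(hcons t p).2]
    exact hnp
  have h4 : ‖(Φ t p).2‖ ≤ C * 2 := h2.trans (mul_le_mul_of_nonneg_left h3 (by linarith))
  constructor
  · refine h1.trans ?_
    exact_mod_cast (le_max_left m1 m2).trans (le_max_right m _)
  · refine (h4.trans hm2).trans ?_
    exact_mod_cast (le_max_right m1 m2).trans (le_max_right m _)

end

end Pool.Agent.VD
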