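import Pool.Agent.helper11.VD.SpecR

/-! Row INC (project VD): the quotient map is injective on small balls. -/

set_option autoImplicit false

open scoped ContDiff Topology InnerProductSpace ENNReal
open MeasureTheory Filter Set

namespace Pool.Agent.VD

/-- The statement for a general space. -/
theorem INC_gen {E : Type} [NormedAddCommGroup E] [ProperSpace E] (Γ : Type) [Group Γ] [MulAction Γ E] (K : Set E) (hK : IsCompact K)
    (hsm : ∀ γ : Γ, Continuous fun x : E => γ • x) (hfree : ∀ (γ : Γ) (x : E), γ • x = x → γ = 1)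
    (hprop : ∀ L : Set E, IsCompact L → {γ : Γ | ∃ x ∈ L, γ • x ∈ L}.Finite) :
    ∃ r0 : ℝ, 0 < r0 ∧ r0 ≤ 1 ∧ ∀ p ∈ K, ∀ (x : E) (γ γ' : Γ), ‖γ • x - p‖ ≤ r0 → ‖γ' • x - p‖ ≤ r0 → γ = γ' := by
  classical
  have hK1 : IsCompact (Metric.cthickening 1 K) := hK.cthickening
  have hS := hprop _ hK1
  have hc : ∀ γ : Γ, ∃ c : ℝ, 0 < c ∧ (γ ≠ 1 → ∀ x ∈ Metric.cthickening 1 K, c ≤ ‖γ • x - x‖) := by
    intro γ
    by_cases h1 : γ = 1
    · exact ⟨1, one_pos, fun h => absurd h1 h⟩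
    rcases (Metric.cthickening 1 K).eq_empty_or_nonempty with h0 | h0
    · exact ⟨1, one_pos, fun _ x hx => by rw [h0] at hx; exact absurd hx (Set.notMem_empty x)⟩
    have hcont : ContinuousOn (fun x : E => ‖γ • x - x‖) (Metric.cthickening 1 K) :=
      (((hsm γ).sub continuous_id).norm).continuousOn
    obtain ⟨z, hz, hmin⟩ := hK1.exists_isMinOn h0 hcont
    refine ⟨‖γ • z - z‖, ?_, fun _ x hx => hmin hx⟩
    rw [norm_pos_iff, sub_ne_zero]
    exact fun h => h1 (hfree γ z h)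
  choose c hc0 hc using hc
  have hfin : ∀ s : Finset Γ, ∃ r : ℝ, 0 < r ∧ ∀ γ ∈ s, r ≤ c γ := by
    intro s
    induction s using Finset.induction_on with
    | empty => exact ⟨1, one_pos, by simp⟩
    | insert a s ha ih =>
      obtain ⟨r, hr, h⟩ := ih
      refine ⟨min r (c a), lt_min hr (hc0 a), ?_⟩
      intro γ hγ
      rcases Finset.mem_insert.1 hγ with h' | h'
      · rw [h']
        exact min_le_right _ _
      · exact (min_le_left _ _).trans (h γ h')
  obtain ⟨r, hr, hrS⟩ := hfin hS.toFinset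
  refine ⟨min 1 (r / 3), lt_min one_pos (by positivity), min_le_left _ _, ?_⟩
  intro p hp x γ γ' h1 h2
  by_contra hne
  have hmem : ∀ y : E, ‖y - p‖ ≤ min 1 (r / 3) → y ∈ Metric.cthickening 1 K := fun y hy =>
    Metric.mem_cthickening_of_dist_le y p 1 K hp (by rw [dist_eq_norm]; exact hy.trans (min_le_left _ _))
  have hg : γ' * γ⁻¹ ≠ 1 := fun h => hne (mul_inv_eq_one.1 h).symm
  have hgy : (γ' * γ⁻¹) • (γ • x) = γ' • x := by rw [smul_smul, inv_mul_cancel_right]
  have hgS : γ' * γ⁻¹ ∈ hS.toFinset := by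
    rw [Set.Finite.mem_toFinset]
    exact ⟨γ • x, hmem _ h1, by rw [hgy]; exact hmem _ h2⟩
  have h3 := hc (γ' * γ⁻¹) hg (γ • x) (hmem _ h1)
  rw [hgy] at h3
  have h4 : ‖γ' • x - γ • x‖ ≤ ‖γ' • x - p‖ + ‖γ • x - p‖ := by
    calc ‖γ' • x - γ • x‖ = ‖(γ' • x - p) - (γ • x - p)‖ := by
          rw [sub_sub_sub_cancel_right]
      _ ≤ _ := norm_sub_le _ _
  have h5 := hrS _ hgS
  have h6 : min 1 (r / 3) ≤ r / 3 := min_le_right _ _
  linarith

theorem INC_proof : INC_stmt := by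
  intro d Γ _ _ K h
  exact INC_gen Γ K h.compact (fun γ => (h.smooth γ).continuous) h.free h.proper

end Pool.Agent.VD
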