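import Pool.Agent.helper11.VD.Spec3e

/-! Row KZD (project VD): kernels with finitely many relative charts have finite range. -/

set_option autoImplicit false

open scoped ContDiff Topology InnerProductSpace ENNReal ComplexConjugate
open MeasureTheory Filter Set

namespace Pool.Agent.VD

open Pool.Agent.VQ (KZ)

noncomputable section

theorem KZD_proof : KZD_stmt := by
  classical
  intro d Γ _ L u h
  obtain ⟨S, hS⟩ := h.range
  refine ⟨h.meas, h.bdd, h.inv, ((S.sup L : ℕ) : ℝ), fun x y hxy => ?_⟩
  have h1 : L (x.1⁻¹ * y.1) ≤ S.sup L := Finset.le_sup (hS x y hxy)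
  show (L (x.1⁻¹ * y.1) : ℝ) ≤ ((S.sup L : ℕ) : ℝ)
  exact_mod_cast h1

end

end Pool.Agent.VD
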