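import Pool.Agent.helper99.VD.SpecV

/-! Row UNK (project VD): the distance `dV` near `K`. -/

set_option autoImplicit false

open scoped ContDiff Topology InnerProductSpace ENNReal
open MeasureTheory Filter Set

namespace Pool.Agent.VD

noncomputable section

theorem UNK_proof (hDVV : DVV_stmt) : UNK_stmt := by
  intro d Γ _ _ K χ hK hχ
  obtain ⟨hbdd, hnn, _, _, _, _, _, _, ⟨C1, hC1, hlow⟩, hup, _⟩ := hDVV d Γ K χ hK hχ
  constructor
  · intro x y hx hy
    have h1 := le_ciSup (hbdd x y) (1 : Γ)
    have h2 : ‖x - y‖ ≤ ‖embV χ ((1 : Γ) • x) - embV χ ((1 : Γ) • y)‖ := by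
      rw [one_smul, one_smul]
      unfold embV
      rw [hχ.one x hx, hχ.one y hy, one_smul, one_smul]
      rw [Prod.mk_sub_mk, Prod.norm_mk]
      exact le_max_left _ _
    exact h2.trans h1
  · have hK1 : IsCompact (Metric.cthickening 1 K) := hK.compact.cthickening
    obtain ⟨M, hM⟩ := hK1.isBounded.exists_norm_le
    obtain ⟨m, hm⟩ := exists_nat_ge M
    obtain ⟨C2, hC2, hup2⟩ := hup m
    have hC0 : 0 < max C1 C2 := lt_of_lt_of_le (by linarith) (le_max_left C1 C2)
    have hC1' : 1 ≤ max C1 C2 := hC1.trans (le_max_left _ _)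
    refine ⟨max C1 C2, 1 / (8 * max C1 C2), m, hC1', by positivity, ?_, fun x hx => (hM x hx).trans hm, ?_, ?_⟩
    · rw [div_le_div_iff₀ (by positivity) (by norm_num)]
      linarith
    · intro x y hx hd
      have h8 : 1 / (8 * max C1 C2) ≤ 1 / 8 := by
        rw [div_le_div_iff₀ (by positivity) (by norm_num)]
        linarith
      have h1 := hlow x y hx (by linarith)
      have h0 := hnn x y
      constructor
      · exact h1.trans (mul_le_mul_of_nonneg_right (le_max_left _ _) h0)
      · have h2 : max C1 C2 * dV Γ χ x y ≤ max C1 C2 * (1 / (8 * max C1 C2)) := mul_le_mul_of_nonneg_left hd hC0.le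
        have h3 : max C1 C2 * (1 / (8 * max C1 C2)) = 1 / 8 := by
          field_simp
        rw [h3] at h2
        linarith
    · intro x y hx hy
      exact (hup2 x y hx hy).trans (mul_le_mul_of_nonneg_right (le_max_right _ _) (norm_nonneg _))

end

end Pool.Agent.VD
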